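import Pool.Agent.Lib.MP_997b73_pr.Tri.Mast

/-!
The two cases: trace zero and trace one.
-/

set_option autoImplicit false

namespace Pool.Agent.Lib.MP_997b73_pr.Tri

open PowerSeries

variable {W : Type*} [Field W]

/-- the coefficient at `v m + u D` -/
noncomputable def la (m D : ℕ) (f : W⟦X⟧) (v u : ℤ) : W := co f (v * m + u * D)

theorem la_neg {m D : ℕ} (hm : 0 < m) (hD : m < D) (f : W⟦X⟧) {v u : ℤ} (hu : u ≤ 0) (hv : v ≤ -u)
    (h : v ≠ 0 ∨ u ≠ 0) : la m D f v u = 0 :=
  co_neg f (pos_neg (by exact_mod_cast hm) (by exact_mod_cast hD) hu hv h)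

theorem conseq {m D M κ : ℕ} (hm : 0 < m) (hD : m < D) (hM : M = m + D) (hκ : 2 ≤ κ) {U : W⟦X⟧}
    (hU : (1 + X ^ M) * U = 1) (f g : W⟦X⟧) (F : Polynomial W) (h0 : F.coeff 0 = 1)
    (hF : ∀ k, 0 < k → k < κ → F.coeff k = 0)
    (hid : f * Polynomial.aeval (X ^ m * U) F = g * Polynomial.aeval (X ^ D * U) F)
    (hg : ∀ v : ℤ, v ≤ 0 → la m D g v 1 = 0) :
    (∀ v : ℤ, v ≤ 0 → la m D f v 1 = 0) ∧
    (∀ v u : ℤ, v < κ → u ≤ 1 → la m D f v u = la m D g v u) ∧
    (∀ v u : ℤ, v ≤ κ + 1 → u < 0 → la m D f v u = la m D g v u) ∧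
    (la m D f κ 0 + F.coeff κ * la m D f 0 0 = la m D g κ 0) ∧
    (la m D f κ 1 = la m D g κ 1 + F.coeff κ * la m D g κ (1 - κ)) ∧
    (la m D f (κ + 1) 1 + F.coeff κ * (la m D f 1 1 - κ * la m D f 0 0) =
      la m D g (κ + 1) 1 + F.coeff κ * la m D g (κ + 1) (1 - κ) +
        F.coeff (κ + 1) * la m D g (κ + 1) (-κ)) ∧
    (la m D f (κ + 1) 0 + F.coeff κ * la m D f 1 0 + F.coeff (κ + 1) * la m D f 0 0 =
      la m D g (κ + 1) 0 + F.coeff κ * la m D g (κ + 1) (-κ)) := by
  obtain ⟨hf, hME⟩ := master hm hD hM hκ hU f g F h0 hF hid hg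
  have hf' : ∀ v : ℤ, v ≤ 0 → la m D f v 1 = 0 := hf
  have ME : ∀ v u : ℤ, v ≤ κ + 1 → u ≤ 1 →
      la m D f v u + (F.coeff κ * (la m D f (v - κ) u - κ * la m D f (v - κ - 1) (u - 1)) +
        F.coeff (κ + 1) * (la m D f (v - κ - 1) u - (κ + 1) * la m D f (v - κ - 2) (u - 1))) =
      la m D g v u + (F.coeff κ * (la m D g v (u - κ) - κ * la m D g (v - 1) (u - κ - 1)) +
        F.coeff (κ + 1) * (la m D g v (u - κ - 1) - (κ + 1) * la m D g (v - 1) (u - κ - 2))) := hME
  have flow : ∀ v u : ℤ, v ≤ -1 → u ≤ 1 → la m D f v u = 0 := by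
    intro v u hv hu
    by_cases hu1 : u = 1
    · rw [hu1]
      exact hf' v (by omega)
    · exact la_neg hm hD f (by omega) (by omega) (by omega)
  have gneg : ∀ v u : ℤ, u ≤ -1 → v ≤ -u → la m D g v u = 0 := fun v u hu hv =>
    la_neg hm hD g (by omega) hv (by omega)
  have fneg : ∀ v u : ℤ, u ≤ -1 → v ≤ -u → la m D f v u = 0 := fun v u hu hv =>
    la_neg hm hD f (by omega) hv (by omega)
  have hκz : (2 : ℤ) ≤ κ := by exact_mod_cast hκ
  refine ⟨hf', ?_, ?_, ?_, ?_, ?_, ?_⟩
  · intro v u hv hu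
    have e := ME v u (by omega) hu
    rw [flow (v - κ) u (by omega) hu, flow (v - κ - 1) (u - 1) (by omega) (by omega),
      flow (v - κ - 1) u (by omega) hu, flow (v - κ - 2) (u - 1) (by omega) (by omega),
      gneg v (u - κ) (by omega) (by omega), gneg (v - 1) (u - κ - 1) (by omega) (by omega),
      gneg v (u - κ - 1) (by omega) (by omega), gneg (v - 1) (u - κ - 2) (by omega) (by omega)] at e
    linear_combination e
  · intro v u hv hu
    have e := ME v u hv (by omega)
    rw [fneg (v - κ) u (by omega) (by omega), fneg (v - κ - 1) (u - 1) (by omega) (by omega),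
      fneg (v - κ - 1) u (by omega) (by omega), fneg (v - κ - 2) (u - 1) (by omega) (by omega),
      gneg v (u - κ) (by omega) (by omega), gneg (v - 1) (u - κ - 1) (by omega) (by omega),
      gneg v (u - κ - 1) (by omega) (by omega), gneg (v - 1) (u - κ - 2) (by omega) (by omega)] at e
    linear_combination e
  · have e := ME κ 0 (by omega) (by omega)
    rw [sub_self, flow (0 - 1) (0 - 1) (by omega) (by omega), flow (0 - 1) 0 (by omega) (by omega),
      flow (0 - 2) (0 - 1) (by omega) (by omega),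
      gneg κ (0 - κ) (by omega) (by omega), gneg (κ - 1) (0 - κ - 1) (by omega) (by omega),
      gneg κ (0 - κ - 1) (by omega) (by omega), gneg (κ - 1) (0 - κ - 2) (by omega) (by omega)] at e
    linear_combination e
  · have e := ME κ 1 (by omega) (by omega)
    rw [sub_self, hf' 0 le_rfl, flow (0 - 1) (1 - 1) (by omega) (by omega), flow (0 - 1) 1 (by omega) (by omega),
      flow (0 - 2) (1 - 1) (by omega) (by omega),
      gneg (κ - 1) (1 - κ - 1) (by omega) (by omega),
      gneg κ (1 - κ - 1) (by omega) (by omega), gneg (κ - 1) (1 - κ - 2) (by omega) (by omega)] at e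
    linear_combination e
  · have e := ME (κ + 1) 1 (by omega) (by omega)
    rw [show (κ : ℤ) + 1 - κ = 1 by ring, sub_self, hf' 0 le_rfl,
      flow (1 - 2) 0 (by omega) (by omega),
      gneg (κ + 1 - 1) (1 - κ - 1) (by omega) (by omega),
      gneg (κ + 1 - 1) (1 - κ - 2) (by omega) (by omega), show (1 : ℤ) - κ - 1 = -κ by ring] at e
    linear_combination e
  · have e := ME (κ + 1) 0 (by omega) (by omega)
    rw [show (κ : ℤ) + 1 - κ = 1 by ring, sub_self, flow (1 - 2) (0 - 1) (by omega) (by omega),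
      la_neg hm hD f (v := 0) (u := 0 - 1) (by omega) (by omega) (by omega),
      gneg (κ + 1 - 1) (0 - κ - 1) (by omega) (by omega),
      gneg (κ + 1) (0 - κ - 1) (by omega) (by omega),
      gneg (κ + 1 - 1) (0 - κ - 2) (by omega) (by omega), zero_sub] at e
    linear_combination e

theorem start {m D M : ℕ} (hm : 0 < m) (hD : m < D) (hM : M = m + D) {U : W⟦X⟧}
    (hU : (1 + X ^ M) * U = 1) (f g : W⟦X⟧) (F : Polynomial W) (h0 : F.coeff 0 = 1)
    (hid : f * Polynomial.aeval (X ^ m * U) F = g * Polynomial.aeval (X ^ D * U) F) :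
    co f 0 = co g 0 ∧ co f m + F.coeff 1 * co f 0 = co g m := by
  have hn1 : F.natDegree < F.natDegree + 3 := by omega
  have hF : ∀ k, 0 < k → k < 1 → F.coeff k = 0 := fun k h1 h2 => by omega
  have van : ∀ (h : W⟦X⟧) (e : ℕ) (p : ℤ), m ≤ e → (p = 0 ∨ p = m) → ∀ k : ℕ, 2 ≤ k ∨ (1 ≤ k ∧ (p = 0 ∨ m < e)) →
      co h (p - k * e) - k * co h (p - k * e - M) = 0 := by
    intro h e p he hp k hk
    have b1 : (1 : ℤ) * e ≤ k * e := mul_le_mul_of_nonneg_right (by omega) (by omega)
    have b2 : 2 ≤ k → (2 : ℤ) * e ≤ k * e := fun h2 => mul_le_mul_of_nonneg_right (by omega) (by omega)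
    have b3 : p - k * e < 0 := by
      rcases hk with hk | hk
      · have := b2 hk
        omega
      · omega
    rw [co_neg h b3, co_neg h (by omega), mul_zero, sub_zero]
  constructor
  · have e1 := expand hU f m F (F.natDegree + 3) hn1 1 h0 hF 0 (by omega)
    have e2 := expand hU g D F (F.natDegree + 3) hn1 1 h0 hF 0 (by omega)
    rw [two_terms (fun k => F.coeff k) (fun k => co f (0 - k * m) - k * co f (0 - k * m - M)) one_pos
      (by omega) (fun k hk => van f m 0 le_rfl (Or.inl rfl) k (by omega))] at e1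
    rw [two_terms (fun k => F.coeff k) (fun k => co g (0 - k * D) - k * co g (0 - k * D - M)) one_pos
      (by omega) (fun k hk => van g D 0 hD.le (Or.inl rfl) k (by omega))] at e2
    rw [van f m 0 le_rfl (Or.inl rfl) 1 (by omega), van f m 0 le_rfl (Or.inl rfl) (1 + 1) (by omega)] at e1
    rw [van g D 0 hD.le (Or.inl rfl) 1 (by omega), van g D 0 hD.le (Or.inl rfl) (1 + 1) (by omega)] at e2
    rw [hid, e2] at e1
    linear_combination -e1
  · have e1 := expand hU f m F (F.natDegree + 3) hn1 1 h0 hF m (by omega)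
    have e2 := expand hU g D F (F.natDegree + 3) hn1 1 h0 hF m (by omega)
    rw [two_terms (fun k => F.coeff k) (fun k => co f ((m : ℤ) - k * m) - k * co f ((m : ℤ) - k * m - M)) one_pos
      (by omega) (fun k hk => van f m m le_rfl (Or.inr rfl) k (by omega))] at e1
    rw [two_terms (fun k => F.coeff k) (fun k => co g ((m : ℤ) - k * D) - k * co g ((m : ℤ) - k * D - M)) one_pos
      (by omega) (fun k hk => van g D m hD.le (Or.inr rfl) k (by omega))] at e2
    rw [van f m m le_rfl (Or.inr rfl) (1 + 1) (by omega), Nat.cast_one, one_mul, sub_self,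
      co_neg f (show (0 : ℤ) - M < 0 by omega)] at e1
    rw [van g D m hD.le (Or.inr rfl) 1 (by omega), van g D m hD.le (Or.inr rfl) (1 + 1) (by omega)] at e2
    rw [hid, e2] at e1
    linear_combination -e1

theorem core {m D M : ℕ} (hm : 0 < m) (hD : m < D) (hM : M = m + D) [CharZero W] {U : W⟦X⟧}
    (hU : (1 + X ^ M) * U = 1) {α : ℝ} (hα0 : 0 < α) (hα1 : α < 1) {b : ℤ → ℝ} {r s : ℤ → ℤ}
    {fR fS : W⟦X⟧} (hfR : ∀ p, co fR p = (r p : W)) (hfS : ∀ p, co fS p = (s p : W))
    (hbn : ∀ p, 0 ≤ b p) (hbneg : ∀ p, p < 0 → b p = 0) (hb0 : b 0 = 1)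
    (hr01 : ∀ p, r p = 0 ∨ r p = 1) (hs01 : ∀ p, s p = 0 ∨ s p = 1)
    (hr : ∀ p, (r p : ℝ) = b p + α * b (p - m) + b (p - M))
    (E : Polynomial W) (hE0 : E.coeff 0 = 1) (hE : ∃ k, 0 < k ∧ E.coeff k ≠ 0)
    (hid : fS * Polynomial.aeval (X ^ m * U) E = fR * Polynomial.aeval (X ^ D * U) E) : False := by
  classical
  have hmz : (0 : ℤ) < m := by exact_mod_cast hm
  have hDz : (m : ℤ) < D := by exact_mod_cast hD
  have hMz : (M : ℤ) = m + D := by exact_mod_cast hM
  have inj : ∀ {x y : ℤ}, (x : W) = (y : W) → x = y := fun h => by exact_mod_cast h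
  have hrneg : ∀ p, p < 0 → r p = 0 := by
    intro p hp
    have e := hfR p
    rw [co_neg fR hp] at e
    exact inj (by rw [← e, Int.cast_zero])
  have hsneg : ∀ p, p < 0 → s p = 0 := by
    intro p hp
    have e := hfS p
    rw [co_neg fS hp] at e
    exact inj (by rw [← e, Int.cast_zero])
  have hr1 : ∀ p, (r p : ℝ) ≤ 1 := by
    intro p
    rcases hr01 p with e | e <;> rw [e] <;> norm_num
  have hb1 : ∀ p, b p ≤ 1 := by
    intro p
    have e := hr p
    have e1 := hr1 p
    have e2 := mul_nonneg hα0.le (hbn (p - m))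
    have e3 := hbn (p - M)
    linarith
  have hr0 : r 0 = 1 := by
    have e := hr 0
    rw [hb0, hbneg _ (show (0 : ℤ) - m < 0 by omega), hbneg _ (show (0 : ℤ) - M < 0 by omega), mul_zero,
      add_zero, add_zero] at e
    exact_mod_cast e
  have hrm : r m = 1 := by
    rcases hr01 m with e | e
    · exfalso
      have e1 := hr m
      rw [e, sub_self, hb0, hbneg _ (show (m : ℤ) - M < 0 by omega), Int.cast_zero] at e1
      have e2 := hbn m
      linarith
    · exact e
  have hcol : ∀ n : ℕ, b (-n * m + D) = 0 ∧ r (-n * m + D) = 0 := by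
    have step : ∀ n : ℕ, b (-n * m + D) = 0 → r (-n * m + D) = 0 ∧ b (-(n + 1 : ℕ) * m + D) = 0 := by
      intro n hn
      have e := hr (-n * m + D)
      have e1 : (-(n : ℤ) * m + D - M) < 0 := by
        have : (0 : ℤ) ≤ n * m := by positivity
        have e5 : -(n : ℤ) * m = -(n * m) := by ring
        omega
      rw [hn, hbneg _ e1, zero_add, add_zero, show -(n : ℤ) * m + D - m = -(n + 1 : ℕ) * m + D by push_cast; ring] at e
      rcases hr01 (-n * m + D) with e2 | e2
      · refine ⟨e2, ?_⟩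
        rw [e2, Int.cast_zero] at e
        exact (mul_eq_zero.mp e.symm).resolve_left hα0.ne'
      · exfalso
        rw [e2, Int.cast_one] at e
        have e3 := hb1 (-(n + 1 : ℕ) * m + D)
        have e4 := mul_le_mul_of_nonneg_left e3 hα0.le
        linarith
    have base : b (-(0 : ℕ) * m + D) = 0 := by
      have e := hr M
      rw [sub_self, hb0, show (M : ℤ) - m = -(0 : ℕ) * m + D by push_cast; rw [hMz]; ring] at e
      have e1 := hr1 M
      have e2 := hbn M
      have e3 := hbn (-(0 : ℕ) * m + D)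
      have e4 : α * b (-(0 : ℕ) * m + D) ≤ 0 := by linarith
      by_contra hc
      have e5 := mul_pos hα0 (lt_of_le_of_ne e3 (Ne.symm hc))
      linarith
    intro n
    induction n with
    | zero => exact ⟨base, (step 0 base).1⟩
    | succ n ih =>
      have h1 := (step n ih.1).2
      exact ⟨h1, (step (n + 1) h1).1⟩
  obtain ⟨st1, st2⟩ := start hm hD hM hU fS fR E hE0 hid
  rw [hfS, hfR, hr0] at st1
  have hs0 : s 0 = 1 := inj st1
  rw [hfS, hfS, hs0, hfR, hrm, Int.cast_one, mul_one] at st2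
  -- the lattice
  have hLat : Lat α (fun v u => b (v * m + u * D)) (fun v u => r (v * m + u * D))
      (fun v u => s (v * m + u * D)) := by
    refine ⟨hα0, hα1, fun v u => hbn _, fun v u => hr01 _, fun v u => hs01 _, ?_, ?_, ?_, ?_, ?_, ?_⟩
    · intro v u hu hv hne
      have hp := pos_neg hmz hDz hu hv hne
      exact ⟨hrneg _ hp, hsneg _ hp, hbneg _ hp⟩
    · show b (0 * m + 0 * D) = 1
      rw [zero_mul, zero_mul, add_zero, hb0]
    · show r (0 * m + 0 * D) = 1
      rw [zero_mul, zero_mul, add_zero, hr0]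
    · show s (0 * m + 0 * D) = 1
      rw [zero_mul, zero_mul, add_zero, hs0]
    · intro v u
      show (r (v * m + u * D) : ℝ) = b (v * m + u * D) + α * b ((v - 1) * m + u * D) +
        b ((v - 1) * m + (u - 1) * D)
      rw [hr, show v * (m : ℤ) + u * D - m = (v - 1) * m + u * D by ring,
        show v * (m : ℤ) + u * D - M = (v - 1) * m + (u - 1) * D by rw [hMz]; ring]
    · intro v hv
      show r (v * m + 1 * D) = 0
      have e := (hcol (-v).toNat).2
      rw [show -(((-v).toNat : ℕ) : ℤ) = v by omega] at e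
      rw [one_mul]
      exact e
  have hlR : ∀ v u : ℤ, la m D fR v u = ((r (v * m + u * D) : ℤ) : W) := fun v u => hfR _
  have hlS : ∀ v u : ℤ, la m D fS v u = ((s (v * m + u * D) : ℤ) : W) := fun v u => hfS _
  rcases hs01 m with hsm | hsm
  · -- trace one
    rw [hsm, Int.cast_zero, zero_add] at st2
    set F : Polynomial W := (1 - Polynomial.X) * E with hFdef
    have hF0 : F.coeff 0 = 1 := by
      rw [hFdef, Polynomial.mul_coeff_zero, hE0]
      simp
    have hFs : ∀ k, F.coeff (k + 1) = E.coeff (k + 1) - E.coeff k := by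
      intro k
      rw [hFdef, sub_mul, one_mul, Polynomial.coeff_sub, Polynomial.coeff_X_mul]
    have hex : ∃ k, 0 < k ∧ F.coeff k ≠ 0 := by
      obtain ⟨k, hk, hk2⟩ := hE
      have hEne : E ≠ 0 := by
        rintro rfl
        exact hk2 (Polynomial.coeff_zero k)
      refine ⟨E.natDegree + 1, by omega, ?_⟩
      rw [hFs, Polynomial.coeff_eq_zero_of_natDegree_lt (Nat.lt_succ_self _), zero_sub, neg_ne_zero]
      exact Polynomial.leadingCoeff_ne_zero.mpr hEne
    obtain ⟨κ, ⟨hκ0, hκne⟩, hκmin⟩ : ∃ κ, (0 < κ ∧ F.coeff κ ≠ 0) ∧ ∀ k < κ, ¬ (0 < k ∧ F.coeff k ≠ 0) :=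
      ⟨Nat.find hex, Nat.find_spec hex, fun k hk => Nat.find_min hex hk⟩
    have hκ2 : 2 ≤ κ := by
      by_contra hc
      have e : κ = 0 + 1 := by omega
      rw [e, hFs, hE0, zero_add, st2, sub_self] at hκne
      exact hκne rfl
    have hFlow : ∀ k, 0 < k → k < κ → F.coeff k = 0 := by
      intro k h1 h2
      have := hκmin k h2
      push Not at this
      exact this h1
    have hid' : (fS + X ^ M * fS - X ^ D * fS) * Polynomial.aeval (X ^ m * U) F =
        (fR + X ^ M * fR - X ^ m * fR) * Polynomial.aeval (X ^ D * U) F := by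
      rw [hFdef, map_mul, map_mul, map_sub, map_sub, map_one, map_one, Polynomial.aeval_X, Polynomial.aeval_X]
      have e1 : fS + X ^ M * fS - X ^ D * fS = fS * ((1 + X ^ M) * (1 - X ^ D * U)) := by
        linear_combination (X ^ D * fS) * hU
      have e2 : fR + X ^ M * fR - X ^ m * fR = fR * ((1 + X ^ M) * (1 - X ^ m * U)) := by
        linear_combination (X ^ m * fR) * hU
      rw [e1, e2]
      linear_combination ((1 + X ^ M) * (1 - X ^ D * U) * (1 - X ^ m * U)) * hid
    have hlf : ∀ v u : ℤ, la m D (fS + X ^ M * fS - X ^ D * fS) v u =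
        ((s (v * m + u * D) + s ((v - 1) * m + (u - 1) * D) - s (v * m + (u - 1) * D) : ℤ) : W) := by
      intro v u
      unfold la
      rw [co_sub, co_add, co_X_pow_mul, co_X_pow_mul, hfS, hfS, hfS,
        show v * (m : ℤ) + u * D - M = (v - 1) * m + (u - 1) * D by rw [hMz]; ring,
        show v * (m : ℤ) + u * D - D = v * m + (u - 1) * D by ring]
      push_cast
      ring
    have hlg : ∀ v u : ℤ, la m D (fR + X ^ M * fR - X ^ m * fR) v u =
        ((r (v * m + u * D) + r ((v - 1) * m + (u - 1) * D) - r ((v - 1) * m + u * D) : ℤ) : W) := by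
      intro v u
      unfold la
      rw [co_sub, co_add, co_X_pow_mul, co_X_pow_mul, hfR, hfR, hfR,
        show v * (m : ℤ) + u * D - M = (v - 1) * m + (u - 1) * D by rw [hMz]; ring,
        show v * (m : ℤ) + u * D - m = (v - 1) * m + u * D by ring]
      push_cast
      ring
    obtain ⟨-, q5, q6, q1, q2, q3, -⟩ := conseq hm hD hM hκ2 hU _ _ F hF0 hFlow hid' (by
      intro v hv
      have a1 := hLat.z v hv
      have a2 := hLat.z (v - 1) (by omega)
      have a3 := (hLat.neg (v - 1) (1 - 1) (by omega) (by omega) (by omega)).1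
      try simp only at a1 a2 a3
      rw [hlg, a1, a2, a3]
      simp)
    have z1 := (hLat.neg (0 - 1) (0 - 1) (by omega) (by omega) (by omega)).2.1
    have z2 := (hLat.neg 0 (0 - 1) (by omega) (by omega) (by omega)).2.1
    have z3 := hLat.S00
    try simp only at z1 z2 z3
    have hA00 : la m D (fS + X ^ M * fS - X ^ D * fS) 0 0 = 1 := by
      rw [hlf, z1, z2, z3]
      simp
    rw [hA00, mul_one] at q1
    have hδ : F.coeff κ = (((r ((κ : ℤ) * m + 0 * D) + r (((κ : ℤ) - 1) * m + (0 - 1) * D) -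
        r (((κ : ℤ) - 1) * m + 0 * D)) - (s ((κ : ℤ) * m + 0 * D) + s (((κ : ℤ) - 1) * m + (0 - 1) * D) -
        s ((κ : ℤ) * m + (0 - 1) * D)) : ℤ) : W) := by
      rw [hlf, hlg] at q1
      rw [Int.cast_sub]
      linear_combination q1
    set δ : ℤ := ((r ((κ : ℤ) * m + 0 * D) + r (((κ : ℤ) - 1) * m + (0 - 1) * D) -
        r (((κ : ℤ) - 1) * m + 0 * D)) - (s ((κ : ℤ) * m + 0 * D) + s (((κ : ℤ) - 1) * m + (0 - 1) * D) -
        s ((κ : ℤ) * m + (0 - 1) * D))) with hδdef
    have hδ0 : δ ≠ 0 := by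
      intro h0
      rw [hδ, h0, Int.cast_zero] at hκne
      exact hκne rfl
    refine hLat.one (κ := κ) (by exact_mod_cast hκ2) hδ0 ?_ ?_ ?_ ?_ ?_
    · intro v u hu hv
      have e := q5 v u hv hu
      rw [hlf, hlg] at e
      exact inj e
    · intro v u hu hv
      have e := q6 v u hv hu
      rw [hlf, hlg] at e
      exact inj e
    · show s ((κ : ℤ) * m + 0 * D) + s (((κ : ℤ) - 1) * m + (-1) * D) - s ((κ : ℤ) * m + (-1) * D) + δ =
        r ((κ : ℤ) * m + 0 * D) + r (((κ : ℤ) - 1) * m + (-1) * D) - r (((κ : ℤ) - 1) * m + 0 * D)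
      rw [hδdef, zero_sub]
      ring
    · show s ((κ : ℤ) * m + 1 * D) + s (((κ : ℤ) - 1) * m + 0 * D) - s ((κ : ℤ) * m + 0 * D) =
        r ((κ : ℤ) * m + 1 * D) + r (((κ : ℤ) - 1) * m + 0 * D) - r (((κ : ℤ) - 1) * m + 1 * D) +
        δ * (r ((κ : ℤ) * m + (1 - κ) * D) + r (((κ : ℤ) - 1) * m + (-κ) * D) -
          r (((κ : ℤ) - 1) * m + (1 - κ) * D))
      apply inj
      rw [hlf, hlg, hlg, hδ, sub_self, show (1 : ℤ) - κ - 1 = -κ by ring] at q2
      rw [q2]
      push_cast
      ring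
    · intro h0
      try simp only at h0
      show s (((κ : ℤ) + 1) * m + 1 * D) + s ((κ : ℤ) * m + 0 * D) - s (((κ : ℤ) + 1) * m + 0 * D) +
        δ * (s (1 * m + 1 * D) + s (0 * m + 0 * D) - s (1 * m + 0 * D) - κ) =
        r (((κ : ℤ) + 1) * m + 1 * D) + r ((κ : ℤ) * m + 0 * D) - r ((κ : ℤ) * m + 1 * D) +
        δ * (r (((κ : ℤ) + 1) * m + (1 - κ) * D) + r ((κ : ℤ) * m + (-κ) * D) -
          r ((κ : ℤ) * m + (1 - κ) * D))
      apply inj
      rw [hA00, mul_one, hlf, hlf, hlg, hlg, hlg, hδ, sub_self, add_sub_cancel_right, h0, Int.cast_zero,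
        mul_zero, add_zero, show (1 : ℤ) - κ - 1 = -κ by ring] at q3
      push_cast at q3 ⊢
      linear_combination q3
  · -- trace zero
    rw [hsm, Int.cast_one] at st2
    have hE1 : E.coeff 1 = 0 := by linear_combination st2
    obtain ⟨κ, ⟨hκ0, hκne⟩, hκmin⟩ : ∃ κ, (0 < κ ∧ E.coeff κ ≠ 0) ∧ ∀ k < κ, ¬ (0 < k ∧ E.coeff k ≠ 0) :=
      ⟨Nat.find hE, Nat.find_spec hE, fun k hk => Nat.find_min hE hk⟩
    have hκ2 : 2 ≤ κ := by
      by_contra hc
      have e : κ = 1 := by omega
      rw [e] at hκne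
      exact hκne hE1
    have hElow : ∀ k, 0 < k → k < κ → E.coeff k = 0 := by
      intro k h1 h2
      have := hκmin k h2
      push Not at this
      exact this h1
    obtain ⟨-, q5, -, q1, -, q3, q4⟩ := conseq hm hD hM hκ2 hU fS fR E hE0 hElow hid (by
      intro v hv
      have a1 := hLat.z v hv
      try simp only at a1
      rw [hlR, a1, Int.cast_zero])
    have z3 := hLat.S00
    try simp only at z3
    have hA00 : la m D fS 0 0 = 1 := by
      rw [hlS, z3, Int.cast_one]
    rw [hA00, mul_one] at q1 q4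
    rw [hA00, mul_one] at q3
    have hε : E.coeff κ = ((r ((κ : ℤ) * m + 0 * D) - s ((κ : ℤ) * m + 0 * D) : ℤ) : W) := by
      rw [hlS, hlR] at q1
      rw [Int.cast_sub]
      linear_combination q1
    set ε : ℤ := r ((κ : ℤ) * m + 0 * D) - s ((κ : ℤ) * m + 0 * D) with hεdef
    have hε0 : ε ≠ 0 := by
      intro h0
      rw [hε, h0, Int.cast_zero] at hκne
      exact hκne rfl
    rw [hlS, hlS, hlR, hlR, hε] at q4
    have hζ : E.coeff (κ + 1) = ((r (((κ : ℤ) + 1) * m + 0 * D) + ε * r (((κ : ℤ) + 1) * m + (-κ) * D) -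
        s (((κ : ℤ) + 1) * m + 0 * D) - ε * s (1 * m + 0 * D) : ℤ) : W) := by
      push_cast at q4 ⊢
      linear_combination q4
    refine hLat.zero (κ := κ) (by exact_mod_cast hκ2) hε0
      (ζ := (r (((κ : ℤ) + 1) * m + 0 * D) + ε * r (((κ : ℤ) + 1) * m + (-κ) * D) -
        s (((κ : ℤ) + 1) * m + 0 * D) - ε * s (1 * m + 0 * D))) ?_ ?_ ?_ ?_
    · intro v u hu hv
      have e := q5 v u hv hu
      rw [hlS, hlR] at e
      exact inj e
    · show s ((κ : ℤ) * m + 0 * D) + ε = r ((κ : ℤ) * m + 0 * D)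
      rw [hεdef]
      ring
    · show s (((κ : ℤ) + 1) * m + 0 * D) + ε * s (1 * m + 0 * D) + _ =
        r (((κ : ℤ) + 1) * m + 0 * D) + ε * r (((κ : ℤ) + 1) * m + (-κ) * D)
      ring
    · show s (((κ : ℤ) + 1) * m + 1 * D) + ε * (s (1 * m + 1 * D) - κ) =
        r (((κ : ℤ) + 1) * m + 1 * D) + ε * r (((κ : ℤ) + 1) * m + (1 - κ) * D) +
        _ * r (((κ : ℤ) + 1) * m + (-κ) * D)
      apply inj
      rw [hlS, hlS, hlR, hlR, hlR, hε, hζ] at q3
      push_cast at q3 ⊢
      linear_combination q3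

end Pool.Agent.Lib.MP_997b73_pr.Tri
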