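import Pool.Agent.Lib.MP_997b73_pr.Prefix
import Pool.Agent.Lib.MP_997b73_pr.Tri.CoreT

/-!
The trinomials `1 + c X^m + X^M` and the integral switching identity.
-/

set_option autoImplicit false

namespace Pool.Agent.Lib.MP_997b73_pr.Tri

open Polynomial

section

variable {W : Type*} [Field W]

/-- the trinomial -/
noncomputable def P3 (m M : ℕ) (c : W) : W[X] := 1 + C c * X ^ m + X ^ M

theorem P3_coeff {m M : ℕ} (c : W) (k : ℕ) : (P3 m M c).coeff k =
    (if k = 0 then 1 else 0) + (if k = m then c else 0) + (if k = M then 1 else 0) := by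
  unfold P3
  rw [coeff_add, coeff_add, coeff_one, coeff_C_mul, coeff_X_pow, coeff_X_pow]
  simp

theorem P3_natDegree {m M : ℕ} (hm : 0 < m) (hM : m < M) (c : W) : (P3 m M c).natDegree = M := by
  apply natDegree_eq_of_le_of_coeff_ne_zero
  · rw [natDegree_le_iff_coeff_eq_zero]
    intro k hk
    rw [P3_coeff, if_neg (by omega), if_neg (by omega), if_neg (by omega)]
    simp
  · rw [P3_coeff, if_neg (by omega), if_neg (by omega), if_pos rfl]
    simp

theorem P3_monic {m M : ℕ} (hm : 0 < m) (hM : m < M) (c : W) : (P3 m M c).Monic := by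
  rw [Monic, leadingCoeff, P3_natDegree hm hM, P3_coeff, if_neg (by omega), if_neg (by omega), if_pos rfl]
  simp

theorem P3_zero {m M : ℕ} (hm : 0 < m) (hM : m < M) (c : W) : (P3 m M c).coeff 0 = 1 := by
  rw [P3_coeff, if_pos rfl, if_neg (by omega), if_neg (by omega)]
  simp

theorem P3_mirror {m M : ℕ} (hm : 0 < m) (hM : m < M) (c : W) :
    (P3 m M c).mirror = P3 (M - m) M c := by
  ext k
  rw [mirror_coeff_of (by rw [P3_zero hm hM]; exact one_ne_zero), P3_natDegree hm hM, P3_coeff, P3_coeff]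
  by_cases hk : k ≤ M
  · rw [if_pos hk]
    have e1 : (M - k = 0) ↔ (k = M) := by omega
    have e2 : (M - k = m) ↔ (k = M - m) := by omega
    have e3 : (M - k = M) ↔ (k = 0) := by omega
    simp only [e1, e2, e3]
    ring
  · rw [if_neg hk, if_neg (by omega), if_neg (by omega), if_neg (by omega)]
    simp

theorem P3_coprime {m M : ℕ} (hM : m < M) {c d : W} (hcd : c ≠ d) :
    IsCoprime (P3 m M c) (P3 m M d) := by
  have hcd' : c - d ≠ 0 := sub_ne_zero.mpr hcd
  have e1 : C ((c - d)⁻¹) * C (c - d) = (1 : W[X]) := by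
    rw [← C_mul, inv_mul_cancel₀ hcd', C_1]
  have e2 : (X : W[X]) ^ M = X ^ m * X ^ (M - m) := by
    rw [← pow_add]
    congr 1
    omega
  refine ⟨1 - (C c + X ^ (M - m)) * C ((c - d)⁻¹), (C c + X ^ (M - m)) * C ((c - d)⁻¹), ?_⟩
  unfold P3
  rw [e2]
  rw [C_sub] at e1
  linear_combination (-(C c + X ^ (M - m)) * X ^ m) * e1

theorem coe_P3 {m M : ℕ} {U : PowerSeries W} (hU : (1 + PowerSeries.X ^ M) * U = 1) (c : W) :
    ((P3 m M c : W[X]) : PowerSeries W) = (1 + PowerSeries.X ^ M) *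
      aeval (PowerSeries.X ^ m * U) (1 + C c * X : W[X]) := by
  unfold P3
  rw [coe_add, coe_add, coe_one, coe_mul, coe_C, coe_pow, coe_pow, coe_X, map_add, map_one, map_mul, aeval_C,
    aeval_X]
  have e : (algebraMap W (PowerSeries W)) c = PowerSeries.C c := rfl
  rw [e]
  linear_combination (-(PowerSeries.C c * PowerSeries.X ^ m)) * hU

theorem coe_prod_P3 {ι : Type*} [Fintype ι] {m M : ℕ} {U : PowerSeries W}
    (hU : (1 + PowerSeries.X ^ M) * U = 1) (c : ι → W) :
    ((∏ i, P3 m M (c i) : W[X]) : PowerSeries W) = (1 + PowerSeries.X ^ M) ^ Fintype.card ι *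
      aeval (PowerSeries.X ^ m * U) (∏ i, (1 + C (c i) * X : W[X])) := by
  have e : ((∏ i, P3 m M (c i) : W[X]) : PowerSeries W) = ∏ i, ((P3 m M (c i) : W[X]) : PowerSeries W) :=
    map_prod (coeToPowerSeries.ringHom (R := W)) _ _
  rw [e, Finset.prod_congr rfl (fun i _ => coe_P3 (m := m) hU (c i)), Finset.prod_mul_distrib, map_prod,
    Finset.prod_const, Finset.card_univ]

theorem E_zero {ι : Type*} [Fintype ι] (c : ι → W) : (∏ i, (1 + C (c i) * X : W[X])).coeff 0 = 1 := by
  rw [coeff_zero_eq_eval_zero, eval_prod]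
  refine Finset.prod_eq_one fun i _ => ?_
  simp

theorem E_exists {ι : Type*} [Fintype ι] [Nonempty ι] (c : ι → W) (hc : ∀ i, c i ≠ 0) :
    ∃ k, 0 < k ∧ (∏ i, (1 + C (c i) * X : W[X])).coeff k ≠ 0 := by
  by_contra hcon
  push Not at hcon
  have e : (∏ i, (1 + C (c i) * X : W[X])) = 1 := by
    ext k
    rcases Nat.eq_zero_or_pos k with rfl | hk
    · rw [E_zero, coeff_one_zero]
    · rw [hcon k hk, coeff_one, if_neg (by omega)]
  obtain ⟨i⟩ := ‹Nonempty ι›
  have e1 := congrArg (eval (-(c i)⁻¹)) e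
  rw [eval_one, eval_prod, Finset.prod_eq_zero (Finset.mem_univ i)] at e1
  · exact zero_ne_one e1
  · simp [hc i]

end

end Pool.Agent.Lib.MP_997b73_pr.Tri
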