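import Mathlib

/-!
The combinatorial part: functions on the lattice of positions `v m + u D`.
-/

set_option autoImplicit false

namespace Pool.Agent.Lib.MP_997b73_pr.Tri

theorem desc {f g : ℤ → ℤ} (hf : ∀ u, 0 ≤ f u) (hg : ∀ u, 0 ≤ g u) {u₀ : ℤ}
    (h : ∀ u, u ≤ u₀ → f u - f (u - 1) = g u) (h0 : f u₀ = 0) :
    ∀ u, u ≤ u₀ → f u = 0 ∧ g u = 0 := by
  intro u hu
  induction u, hu using Int.le_induction_down with
  | base =>
    have h1 := h u₀ le_rfl
    have h2 := hf (u₀ - 1)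
    have h3 := hg u₀
    exact ⟨h0, by omega⟩
  | pred u hu ih =>
    have h1 := h u hu
    have h2 := hf (u - 1)
    have h3 := h (u - 1) (by omega)
    have h4 := hf (u - 1 - 1)
    have h5 := hg (u - 1)
    omega

theorem mono {f g : ℤ → ℤ} (hg : ∀ u, 0 ≤ g u) {u₀ : ℤ}
    (h : ∀ u, u ≤ u₀ → f u - f (u - 1) = g u) {u w : ℤ} (huw : u ≤ w) (hw : w ≤ u₀) : f u ≤ f w := by
  induction w, huw using Int.le_induction with
  | base => exact le_rfl
  | succ w huw ih =>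
    have h1 := h (w + 1) hw
    rw [add_sub_cancel_right] at h1
    have h2 := hg (w + 1)
    have h3 := ih (by omega)
    omega

/-- the data on the lattice -/
structure Lat (a : ℝ) (b : ℤ → ℤ → ℝ) (R S : ℤ → ℤ → ℤ) : Prop where
  a0 : 0 < a
  a1 : a < 1
  bn : ∀ v u, 0 ≤ b v u
  R01 : ∀ v u, R v u = 0 ∨ R v u = 1
  S01 : ∀ v u, S v u = 0 ∨ S v u = 1
  neg : ∀ v u, u ≤ 0 → v ≤ -u → (v ≠ 0 ∨ u ≠ 0) → R v u = 0 ∧ S v u = 0 ∧ b v u = 0
  b00 : b 0 0 = 1
  R00 : R 0 0 = 1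
  S00 : S 0 0 = 1
  rb : ∀ v u, (R v u : ℝ) = b v u + a * b (v - 1) u + b (v - 1) (u - 1)
  z : ∀ v, v ≤ 0 → R v 1 = 0

namespace Lat

variable {a : ℝ} {b : ℤ → ℤ → ℝ} {R S : ℤ → ℤ → ℤ}

theorem Rn (h : Lat a b R S) (v u : ℤ) : 0 ≤ R v u := by
  rcases h.R01 v u with e | e <;> omega

theorem Sn (h : Lat a b R S) (v u : ℤ) : 0 ≤ S v u := by
  rcases h.S01 v u with e | e <;> omega

theorem le (h : Lat a b R S) (v u : ℤ) : b v u + a * b (v - 1) u + b (v - 1) (u - 1) ≤ 1 := by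
  rw [← h.rb]
  rcases h.R01 v u with e | e <;> rw [e] <;> norm_num

theorem b_le (h : Lat a b R S) (v u : ℤ) : b v u ≤ 1 := by
  have h1 := h.le v u
  have h2 := mul_nonneg h.a0.le (h.bn (v - 1) u)
  have h3 := h.bn (v - 1) (u - 1)
  linarith

theorem R_of_m (h : Lat a b R S) {v u : ℤ} (hb : 0 < b (v - 1) u) : R v u = 1 := by
  rcases h.R01 v u with e | e
  · have h1 := h.rb v u
    rw [e, Int.cast_zero] at h1
    have h2 := mul_pos h.a0 hb
    have h3 := h.bn v u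
    have h4 := h.bn (v - 1) (u - 1)
    linarith
  · exact e

theorem R_of_M (h : Lat a b R S) {v u : ℤ} (hb : 0 < b (v - 1) (u - 1)) : R v u = 1 := by
  rcases h.R01 v u with e | e
  · have h1 := h.rb v u
    rw [e, Int.cast_zero] at h1
    have h2 := mul_nonneg h.a0.le (h.bn (v - 1) u)
    have h3 := h.bn v u
    linarith
  · exact e

/-- the first columns -/
def Col (b : ℤ → ℤ → ℝ) (R S : ℤ → ℤ → ℤ) (v : ℤ) : Prop :=
  (∀ u, u < 0 → R v u = 0 ∧ S v u = 0 ∧ b v u = 0) ∧ R v 0 = 1 ∧ 0 < b v 0 ∧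
    (1 ≤ v → S v 0 = 0) ∧ S v 1 = 1 ∧ (1 ≤ v → R v 1 = 1)

theorem bnext (h : Lat a b R S) {v : ℤ} (h0 : 0 < b (v - 1) 0) (h1 : b (v - 1) (-1) = 0) : 0 < b v 0 := by
  have e := h.rb v 0
  rw [h.R_of_m h0, zero_sub, h1, Int.cast_one] at e
  have h2 := h.b_le (v - 1) 0
  have h3 : a * b (v - 1) 0 < 1 := by
    have := mul_le_mul_of_nonneg_left h2 h.a0.le
    linarith [h.a1]
  linarith

theorem col (h : Lat a b R S) {κ : ℤ}
    (H5 : ∀ v u, u ≤ 1 → v < κ → S v u + S (v - 1) (u - 1) - S v (u - 1) =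
      R v u + R (v - 1) (u - 1) - R (v - 1) u) (v : ℤ) (hv : 0 ≤ v) (hκ : v < κ) : Col b R S v := by
  induction v, hv using Int.le_induction with
  | base =>
    have e1 := H5 0 1 le_rfl hκ
    rw [sub_self, zero_sub, h.z 0 le_rfl, h.z (-1) (by omega), h.S00, (h.neg (-1) 0 le_rfl (by omega) (by omega)).1,
      (h.neg (-1) 0 le_rfl (by omega) (by omega)).2.1] at e1
    refine ⟨fun u hu => h.neg 0 u hu.le (by omega) (by omega), h.R00, by rw [h.b00]; exact one_pos, fun h1 => by omega,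
      by omega, fun h1 => by omega⟩
  | succ v hv ih =>
    obtain ⟨c1, c2, c3, c4, c5, c6⟩ := ih (by omega)
    have hR0 : R (v + 1) 0 = 1 := h.R_of_m (by rwa [add_sub_cancel_right])
    have hR1 : R (v + 1) 1 = 1 := h.R_of_M (by rwa [add_sub_cancel_right, sub_self])
    have hd : ∀ u, u ≤ -1 → S (v + 1) u - S (v + 1) (u - 1) = R (v + 1) u := by
      intro u hu
      have e := H5 (v + 1) u (by omega) hκ
      rw [add_sub_cancel_right, (c1 u (by omega)).1, (c1 (u - 1) (by omega)).1, (c1 (u - 1) (by omega)).2.1] at e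
      omega
    have e0 := H5 (v + 1) 0 (by omega) hκ
    rw [add_sub_cancel_right, hR0, c2, zero_sub, (c1 (-1) (by omega)).1, (c1 (-1) (by omega)).2.1] at e0
    have e1 := H5 (v + 1) 1 (by omega) hκ
    rw [add_sub_cancel_right, hR1, sub_self, c2] at e1
    have hS1 := h.S01 (v + 1) 1
    have hS0 := h.S01 (v + 1) 0
    have key : S (v + 1) 0 = 0 ∧ S (v + 1) 1 = 1 := by
      by_cases hv0 : v = 0
      · subst hv0
        rw [h.S00, h.z 0 le_rfl] at e1
        omega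
      · rw [c4 (by omega), c6 (by omega)] at e1
        omega
    have hm := desc (fun u => h.Sn (v + 1) u) (fun u => h.Rn (v + 1) u) hd (by omega)
    have hb : ∀ u, u < 0 → b (v + 1) u = 0 := by
      intro u hu
      have e := h.rb (v + 1) u
      rw [add_sub_cancel_right, (hm u (by omega)).2, (c1 u hu).2.2, (c1 (u - 1) (by omega)).2.2, Int.cast_zero] at e
      linarith
    refine ⟨fun u hu => ⟨(hm u (by omega)).2, (hm u (by omega)).1, hb u hu⟩, hR0, ?_, fun _ => key.1, key.2, fun _ => hR1⟩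
    apply h.bnext
    · rwa [add_sub_cancel_right]
    · rw [add_sub_cancel_right]
      exact (c1 (-1) (by omega)).2.2

/-- trace one -/
theorem one (h : Lat a b R S) {κ : ℤ} (hκ : 2 ≤ κ) {δ : ℤ} (hδ : δ ≠ 0)
    (H5 : ∀ v u, u ≤ 1 → v < κ → S v u + S (v - 1) (u - 1) - S v (u - 1) =
      R v u + R (v - 1) (u - 1) - R (v - 1) u)
    (H6 : ∀ v u, u < 0 → v ≤ κ + 1 → S v u + S (v - 1) (u - 1) - S v (u - 1) =
      R v u + R (v - 1) (u - 1) - R (v - 1) u)
    (H1 : S κ 0 + S (κ - 1) (-1) - S κ (-1) + δ = R κ 0 + R (κ - 1) (-1) - R (κ - 1) 0)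
    (H2 : S κ 1 + S (κ - 1) 0 - S κ 0 = R κ 1 + R (κ - 1) 0 - R (κ - 1) 1 +
      δ * (R κ (1 - κ) + R (κ - 1) (-κ) - R (κ - 1) (1 - κ)))
    (H3 : R (κ + 1) (-κ) + R κ (-κ - 1) - R κ (-κ) = 0 →
      S (κ + 1) 1 + S κ 0 - S (κ + 1) 0 + δ * (S 1 1 + S 0 0 - S 1 0 - κ) =
      R (κ + 1) 1 + R κ 0 - R κ 1 + δ * (R (κ + 1) (1 - κ) + R κ (-κ) - R κ (1 - κ))) : False := by
  obtain ⟨c1, c2, c3, c4, c5, c6⟩ := h.col H5 (κ - 1) (by omega) (by omega)
  obtain ⟨d1, d2, d3, d4, d5, d6⟩ := h.col H5 1 (by omega) (by omega)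
  have hR0 : R κ 0 = 1 := h.R_of_m c3
  have hR1 : R κ 1 = 1 := h.R_of_M (by rwa [sub_self])
  have hSκ0 := h.S01 κ 0
  have hSκ1 := h.S01 κ 1
  have hSκm := h.S01 κ (-1)
  rw [hR0, c2, (c1 (-1) (by omega)).1, (c1 (-1) (by omega)).2.1] at H1
  rw [hR1, c2, c4 (by omega), c6 (by omega), (c1 (-κ) (by omega)).1, (c1 (1 - κ) (by omega)).1] at H2
  have hd : ∀ u, u ≤ -1 → S κ u - S κ (u - 1) = R κ u := by
    intro u hu
    have e := H6 κ u (by omega) (by omega)
    rw [(c1 u (by omega)).1, (c1 (u - 1) (by omega)).1, (c1 (u - 1) (by omega)).2.1] at e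
    omega
  -- no seed at `(κ, 1 - κ)`
  have hdeep : R κ (1 - κ) = 0 := by
    rcases h.R01 κ (1 - κ) with e | e
    · exact e
    · exfalso
      have e1 := hd (1 - κ) (by omega)
      have e2 := h.Sn κ (1 - κ - 1)
      have e3 := mono (fun u => h.Rn κ u) hd (show 1 - κ ≤ -1 by omega) le_rfl
      rw [e] at H2
      have e4 : δ = 1 := by omega
      rw [e4] at H2 H1
      omega
  rw [hdeep] at H2
  have hδ1 : δ = 1 ∧ S κ (-1) = 1 ∧ S κ 0 = 0 := by
    have e : δ * (0 + 0 - 0) = 0 := by ring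
    rw [e] at H2
    omega
  obtain ⟨hδ1, hS1, hS0⟩ := hδ1
  -- the seed
  have hex : ∃ n : ℕ, S κ (-1 - n) = 0 := by
    refine ⟨(κ - 1).toNat, ?_⟩
    have e : (-1 - ((κ - 1).toNat : ℤ)) = -κ := by omega
    rw [e]
    exact (h.neg κ (-κ) (by omega) (by omega) (by omega)).2.1
  classical
  obtain ⟨n, hn, hmin⟩ : ∃ n : ℕ, S κ (-1 - n) = 0 ∧ ∀ k < n, S κ (-1 - (k : ℤ)) ≠ 0 :=
    ⟨Nat.find hex, Nat.find_spec hex, fun k hk => Nat.find_min hex hk⟩
  have hn0 : n ≠ 0 := by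
    rintro rfl
    rw [Nat.cast_zero, sub_zero] at hn
    omega
  set t : ℤ := (n : ℤ) with ht
  have ht1 : 1 ≤ t := by omega
  have hSt : S κ (-t) = 1 := by
    have e := hmin (n - 1) (by omega)
    have e2 : (-1 - ((n - 1 : ℕ) : ℤ)) = -t := by omega
    rw [e2] at e
    exact (h.S01 κ (-t)).resolve_left e
  have hSt1 : S κ (-t - 1) = 0 := by
    have e2 : -t - 1 = -1 - t := by ring
    rw [e2]
    exact hn
  have hRt : R κ (-t) = 1 := by
    have e := hd (-t) (by omega)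
    omega
  have hlow := desc (fun u => h.Sn κ u) (fun u => h.Rn κ u) (u₀ := -t - 1) (fun u hu => hd u (by omega)) hSt1
  have htκ : t < κ := by
    by_contra hc
    have e := (h.neg κ (-t) (by omega) (by omega) (by omega)).2.1
    omega
  have htκ2 : t ≠ κ - 1 := by
    intro e
    rw [e, neg_sub] at hRt
    omega
  have hbt : b κ (-t) = 1 := by
    have e := h.rb κ (-t)
    rw [hRt, (c1 (-t) (by omega)).2.2, (c1 (-t - 1) (by omega)).2.2, Int.cast_one] at e
    linarith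
  have hb0 : 0 < b κ 0 := h.bnext c3 (c1 (-1) (by omega)).2.2
  have ht2 : 2 ≤ t := by
    by_contra hc
    have e1 : t = 1 := by omega
    rw [e1] at hbt
    have e2 := h.le (κ + 1) 0
    rw [add_sub_cancel_right, zero_sub, hbt] at e2
    have e3 := mul_pos h.a0 hb0
    have e4 := h.bn (κ + 1) 0
    linarith
  have hRt1 : R κ (-t + 1) = 0 := by
    have e := hd (-t + 1) (by omega)
    rw [add_sub_cancel_right] at e
    have e1 := h.S01 κ (-t + 1)
    have e2 := h.Rn κ (-t + 1)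
    omega
  -- column `κ + 1`
  have f1 : R (κ + 1) (-t) = 1 := h.R_of_m (by rw [add_sub_cancel_right, hbt]; exact one_pos)
  have f2 : R (κ + 1) (-t + 1) = 1 :=
    h.R_of_M (by rw [add_sub_cancel_right, add_sub_cancel_right, hbt]; exact one_pos)
  have g1 := H6 (κ + 1) (-t) (by omega) (by omega)
  rw [add_sub_cancel_right, f1, hRt, hSt1, (hlow (-t - 1) (by omega)).2] at g1
  have g2 := H6 (κ + 1) (-t + 1) (by omega) (by omega)
  rw [add_sub_cancel_right, add_sub_cancel_right, f2, hRt, hRt1, hSt] at g2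
  have g3 := h.S01 (κ + 1) (-t + 1)
  have g4 := h.Sn (κ + 1) (-t)
  have g5 : S (κ + 1) (-t - 1) = 0 := by omega
  have hlow2 := desc (fun u => h.Sn (κ + 1) u) (fun u => h.Rn (κ + 1) u) (u₀ := -t - 1) (fun u hu => by
    have e := H6 (κ + 1) u (by omega) (by omega)
    rw [add_sub_cancel_right, (hlow u (by omega)).2, (hlow (u - 1) (by omega)).2, (hlow (u - 1) (by omega)).1] at e
    show S (κ + 1) u - S (κ + 1) (u - 1) = R (κ + 1) u
    omega) g5
  have k1 : R (κ + 1) 1 = 1 := h.R_of_M (by rwa [add_sub_cancel_right, sub_self])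
  have H3' := H3 (by
    rw [(hlow2 (-κ) (by omega)).2, (hlow (-κ - 1) (by omega)).2, (hlow (-κ) (by omega)).2]
    ring)
  rw [hδ1, k1, hR0, hR1, hS0, (hlow2 (1 - κ) (by omega)).2, (hlow (-κ) (by omega)).2, (hlow (1 - κ) (by omega)).2,
    d5, h.S00, d4 (by omega)] at H3'
  have k2 := h.S01 (κ + 1) 1
  have k3 := h.Sn (κ + 1) 0
  omega

/-- trace zero -/
theorem zero (h : Lat a b R S) {κ : ℤ} (hκ : 2 ≤ κ) {ε ζ : ℤ} (hε : ε ≠ 0)
    (H5 : ∀ v u, u ≤ 1 → v < κ → S v u = R v u)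
    (H1 : S κ 0 + ε = R κ 0)
    (H4 : S (κ + 1) 0 + ε * S 1 0 + ζ = R (κ + 1) 0 + ε * R (κ + 1) (-κ))
    (H3 : S (κ + 1) 1 + ε * (S 1 1 - κ) =
      R (κ + 1) 1 + ε * R (κ + 1) (1 - κ) + ζ * R (κ + 1) (-κ)) : False := by
  have hb0 : 0 < b 0 0 := by rw [h.b00]; exact one_pos
  have n1 : b 0 (-1) = 0 := (h.neg 0 (-1) (by omega) (by omega) (by omega)).2.2
  have n2 : b 1 (-1) = 0 := (h.neg 1 (-1) (by omega) (by omega) (by omega)).2.2
  have r1 : R 1 0 = 1 := h.R_of_m (by rwa [sub_self])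
  have r11 : R 1 1 = 1 := h.R_of_M (by rwa [sub_self])
  have b1 : 0 < b 1 0 := h.bnext (by rwa [sub_self]) (by rwa [sub_self])
  have r2 : R 2 0 = 1 := h.R_of_m (by norm_num; exact b1)
  have b2 : 0 < b 2 0 := h.bnext (by norm_num; exact b1) (by norm_num; exact n2)
  have r3 : R 3 0 = 1 := h.R_of_m (by norm_num; exact b2)
  have r31 : R 3 1 = 1 := h.R_of_M (by norm_num; exact b2)
  have n3 : b 2 (-1) = 0 := by
    have e := h.rb 2 (-1)
    norm_num at e
    rw [n2, (h.neg 1 (-2) (by omega) (by omega) (by omega)).2.2] at e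
    have e2 := h.le 3 0
    norm_num at e2
    have e3 := h.bn 3 0
    have e4 := mul_pos h.a0 b2
    rcases h.R01 2 (-1) with e5 | e5
    · rw [e5, Int.cast_zero] at e
      linarith
    · rw [e5, Int.cast_one] at e
      linarith
  have b3 : 0 < b 3 0 := h.bnext (by norm_num; exact b2) (by norm_num; exact n3)
  have r4 : R 4 0 = 1 := h.R_of_m (by norm_num; exact b3)
  have s1 := H5 1 0 (by omega) (by omega)
  have s11 := H5 1 1 le_rfl (by omega)
  rw [s1, r1] at H4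
  rw [s11, r11] at H3
  have a1 := h.S01 κ 0
  have a2 := h.R01 κ 0
  have a3 := h.S01 (κ + 1) 0
  have a4 := h.R01 (κ + 1) 0
  have a5 := h.S01 (κ + 1) 1
  have a6 := h.R01 (κ + 1) 1
  have a7 := h.R01 (κ + 1) (1 - κ)
  have a8 := h.R01 (κ + 1) (-κ)
  have hε1 : ε = 1 ∨ ε = -1 := by omega
  have hk2 : κ = 2 → R κ 0 = 1 ∧ R (κ + 1) 0 = 1 ∧ R (κ + 1) 1 = 1 := by
    rintro rfl
    exact ⟨r2, by norm_num; exact r3, by norm_num; exact r31⟩
  have hk3 : κ = 3 → R κ 0 = 1 ∧ R (κ + 1) 0 = 1 := by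
    rintro rfl
    exact ⟨r3, by norm_num; exact r4⟩
  rcases hε1 with e | e <;> rw [e] at H1 H3 H4 <;> rcases a8 with e8 | e8 <;> rw [e8] at H3 H4
  · by_cases c2 : κ = 2
    · have := hk2 c2
      omega
    · omega
  · by_cases c2 : κ = 2
    · have := hk2 c2
      omega
    · by_cases c3 : κ = 3
      · have := hk3 c3
        omega
      · omega
  · by_cases c2 : κ = 2
    · have := hk2 c2
      omega
    · omega
  · by_cases c2 : κ = 2
    · have := hk2 c2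
      omega
    · by_cases c3 : κ = 3
      · have := hk3 c3
        omega
      · omega

end Lat

end Pool.Agent.Lib.MP_997b73_pr.Tri
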