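import Pool.Agent.Lib.MP_997b73_pr.Tri.Series
import Pool.Agent.Lib.MP_997b73_pr.Tri.Comb

/-!
The equations between the coefficients at low positions.
-/

set_option autoImplicit false

namespace Pool.Agent.Lib.MP_997b73_pr.Tri

open PowerSeries

variable {W : Type*} [Field W]

theorem two_terms (c T : ℕ → W) {κ n : ℕ} (hκ : 0 < κ) (hn : κ + 1 < n)
    (hT : ∀ k, κ + 2 ≤ k → T k = 0) :
    ∑ k ∈ (Finset.range n).filter (fun k => κ ≤ k ∧ 0 < k), c k * T k =
      c κ * T κ + c (κ + 1) * T (κ + 1) := by
  classical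
  rw [← Finset.sum_pair (f := fun k => c k * T k) (show κ ≠ κ + 1 by omega)]
  symm
  apply Finset.sum_subset
  · intro k hk
    rw [Finset.mem_insert, Finset.mem_singleton] at hk
    rw [Finset.mem_filter, Finset.mem_range]
    omega
  · intro k hk hk2
    rw [Finset.mem_filter, Finset.mem_range] at hk
    rw [Finset.mem_insert, Finset.mem_singleton] at hk2
    rw [hT k (by omega), mul_zero]

theorem pos_neg {m D : ℤ} (hm : 0 < m) (hD : m < D) {v u : ℤ} (hu : u ≤ 0) (hv : v ≤ -u)
    (h : v ≠ 0 ∨ u ≠ 0) : v * m + u * D < 0 := by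
  have h1 : v * m ≤ -u * m := mul_le_mul_of_nonneg_right hv hm.le
  rcases eq_or_lt_of_le hu with h2 | h2
  · subst h2
    have h3 : v < 0 := by omega
    have h4 := mul_neg_of_neg_of_pos h3 hm
    omega
  · have h3 : u * (D - m) < 0 := mul_neg_of_neg_of_pos h2 (by omega)
    have h4 : u * (D - m) = u * D - u * m := by ring
    have h5 : -u * m = -(u * m) := by ring
    omega

theorem master {m D M κ : ℕ} (hm : 0 < m) (hD : m < D) (hM : M = m + D) (hκ : 2 ≤ κ) {U : W⟦X⟧}
    (hU : (1 + X ^ M) * U = 1) (f g : W⟦X⟧) (F : Polynomial W) (h0 : F.coeff 0 = 1)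
    (hF : ∀ k, 0 < k → k < κ → F.coeff k = 0)
    (hid : f * Polynomial.aeval (X ^ m * U) F = g * Polynomial.aeval (X ^ D * U) F)
    (hg : ∀ v : ℤ, v ≤ 0 → co g (v * m + 1 * D) = 0) :
    (∀ v : ℤ, v ≤ 0 → co f (v * m + 1 * D) = 0) ∧
    ∀ v u : ℤ, v ≤ κ + 1 → u ≤ 1 →
      co f (v * m + u * D) + (F.coeff κ * (co f ((v - κ) * m + u * D) -
          κ * co f ((v - κ - 1) * m + (u - 1) * D)) +
        F.coeff (κ + 1) * (co f ((v - κ - 1) * m + u * D) -
          (κ + 1) * co f ((v - κ - 2) * m + (u - 1) * D))) =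
      co g (v * m + u * D) + (F.coeff κ * (co g (v * m + (u - κ) * D) -
          κ * co g ((v - 1) * m + (u - κ - 1) * D)) +
        F.coeff (κ + 1) * (co g (v * m + (u - κ - 1) * D) -
          (κ + 1) * co g ((v - 1) * m + (u - κ - 2) * D))) := by
  have hmz : (0 : ℤ) < m := by exact_mod_cast hm
  have hDz : (m : ℤ) < D := by exact_mod_cast hD
  have hMz : (M : ℤ) = m + D := by exact_mod_cast hM
  have hn1 : F.natDegree < F.natDegree + κ + 3 := by omega
  -- both expansions
  have key : ∀ v u : ℤ, v ≤ κ + 1 → u ≤ 1 →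
      co f (v * m + u * D) + ∑ k ∈ (Finset.range (F.natDegree + κ + 3)).filter (fun k => κ ≤ k ∧ 0 < k),
        F.coeff k * (co f ((v - k) * m + u * D) - k * co f ((v - k - 1) * m + (u - 1) * D)) =
      co g (v * m + u * D) + ∑ k ∈ (Finset.range (F.natDegree + κ + 3)).filter (fun k => κ ≤ k ∧ 0 < k),
        F.coeff k * (co g (v * m + (u - k) * D) - k * co g ((v - 1) * m + (u - k - 1) * D)) := by
    intro v u hv hu
    have b1 : v * m ≤ (κ + 1) * m := mul_le_mul_of_nonneg_right hv hmz.le
    have b2 : u * D ≤ 1 * D := mul_le_mul_of_nonneg_right hu (by omega)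
    have b3 : (κ : ℤ) * m ≤ κ * D := mul_le_mul_of_nonneg_left hDz.le (by omega)
    have b4 : ((κ : ℤ) + 1) * m = κ * m + m := by ring
    have e1 := expand hU f m F (F.natDegree + κ + 3) hn1 κ h0 hF (v * m + u * D) (by omega)
    have e2 := expand hU g D F (F.natDegree + κ + 3) hn1 κ h0 hF (v * m + u * D) (by omega)
    rw [hid, e2] at e1
    have s1 : ∀ k ∈ (Finset.range (F.natDegree + κ + 3)).filter (fun k => κ ≤ k ∧ 0 < k),
        F.coeff k * (co f ((v - k) * m + u * D) - k * co f ((v - k - 1) * m + (u - 1) * D)) =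
        F.coeff k * (co f (v * m + u * D - k * m) - k * co f (v * m + u * D - k * m - M)) := by
      intro k _
      rw [show (v - k) * (m : ℤ) + u * D = v * m + u * D - k * m by ring,
        show (v - k - 1) * (m : ℤ) + (u - 1) * D = v * m + u * D - k * m - M by rw [hMz]; ring]
    have s2 : ∀ k ∈ (Finset.range (F.natDegree + κ + 3)).filter (fun k => κ ≤ k ∧ 0 < k),
        F.coeff k * (co g (v * m + (u - k) * D) - k * co g ((v - 1) * m + (u - k - 1) * D)) =
        F.coeff k * (co g (v * m + u * D - k * D) - k * co g (v * m + u * D - k * D - M)) := by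
      intro k _
      rw [show v * (m : ℤ) + (u - k) * D = v * m + u * D - k * D by ring,
        show (v - 1) * (m : ℤ) + (u - k - 1) * D = v * m + u * D - k * D - M by rw [hMz]; ring]
    rw [Finset.sum_congr rfl s1, Finset.sum_congr rfl s2]
    exact e1.symm
  -- the first column
  have hf : ∀ n : ℕ, ∀ v : ℤ, v ≤ 0 → v * m + 1 * D < n → co f (v * m + 1 * D) = 0 := by
    intro n
    induction n with
    | zero =>
      intro v _ hv
      exact co_neg _ (by rw [Nat.cast_zero] at hv; exact hv)
    | succ n ih =>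
      intro v hv hvn
      have h1 := key v 1 (by omega) le_rfl
      rw [hg v hv] at h1
      have z1 : ∀ k ∈ (Finset.range (F.natDegree + κ + 3)).filter (fun k => κ ≤ k ∧ 0 < k),
          F.coeff k * (co f ((v - k) * m + 1 * D) - k * co f ((v - k - 1) * m + (1 - 1) * D)) = 0 := by
        intro k hk
        rw [Finset.mem_filter] at hk
        have hk1 : (1 : ℤ) ≤ k := by exact_mod_cast hk.2.2
        have hk2 : (v - k) * (m : ℤ) ≤ (v - 1) * m := mul_le_mul_of_nonneg_right (by omega) hmz.le
        have hk3 : (v - 1) * (m : ℤ) = v * m - m := by ring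
        rw [ih (v - k) (by omega) (by push_cast at hvn; omega),
          co_neg f (pos_neg hmz hDz (v := v - k - 1) (u := 1 - 1) (by omega) (by omega) (by omega)),
          mul_zero, sub_zero, mul_zero]
      have z2 : ∀ k ∈ (Finset.range (F.natDegree + κ + 3)).filter (fun k => κ ≤ k ∧ 0 < k),
          F.coeff k * (co g (v * m + (1 - k) * D) - k * co g ((v - 1) * m + (1 - k - 1) * D)) = 0 := by
        intro k hk
        rw [Finset.mem_filter] at hk
        have hk1 : (2 : ℤ) ≤ k := by exact_mod_cast hκ.trans hk.2.1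
        rw [co_neg g (pos_neg hmz hDz (v := v - 1) (u := 1 - k - 1) (by omega) (by omega) (by omega)),
          co_neg g (pos_neg hmz hDz (v := v) (u := 1 - k) (by omega) (by omega) (by omega)),
          mul_zero, sub_zero, mul_zero]
      rw [Finset.sum_congr rfl z1, Finset.sum_congr rfl z2, Finset.sum_const_zero, add_zero,
        add_zero] at h1
      exact h1
  have hf0 : ∀ v : ℤ, v ≤ 0 → co f (v * m + 1 * D) = 0 := by
    intro v hv
    refine hf ((v * m + 1 * D).toNat + 1) v hv ?_
    push_cast
    omega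
  refine ⟨hf0, ?_⟩
  intro v u hv hu
  have h1 := key v u hv hu
  rw [two_terms (fun k => F.coeff k)
      (fun k => co f ((v - k) * m + u * D) - k * co f ((v - k - 1) * m + (u - 1) * D))
      (κ := κ) (by omega) (by omega) (by
        intro k hk
        have hkz : (κ : ℤ) + 2 ≤ k := by exact_mod_cast hk
        have a1 : co f ((v - k) * m + u * D) = 0 := by
          by_cases hu1 : u = 1
          · rw [hu1]
            exact hf0 _ (by omega)
          · exact co_neg f (pos_neg hmz hDz (by omega) (by omega) (by omega))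
        have a2 : co f ((v - k - 1) * m + (u - 1) * D) = 0 :=
          co_neg f (pos_neg hmz hDz (by omega) (by omega) (by omega))
        show co f ((v - k) * m + u * D) - k * co f ((v - k - 1) * m + (u - 1) * D) = 0
        rw [a1, a2, mul_zero, sub_zero]),
    two_terms (fun k => F.coeff k)
      (fun k => co g (v * m + (u - k) * D) - k * co g ((v - 1) * m + (u - k - 1) * D))
      (κ := κ) (by omega) (by omega) (by
        intro k hk
        have hkz : (κ : ℤ) + 2 ≤ k := by exact_mod_cast hk
        have a1 : co g (v * m + (u - k) * D) = 0 :=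
          co_neg g (pos_neg hmz hDz (by omega) (by omega) (by omega))
        have a2 : co g ((v - 1) * m + (u - k - 1) * D) = 0 :=
          co_neg g (pos_neg hmz hDz (by omega) (by omega) (by omega))
        show co g (v * m + (u - k) * D) - k * co g ((v - 1) * m + (u - k - 1) * D) = 0
        rw [a1, a2, mul_zero, sub_zero])] at h1
  push_cast at h1
  rw [show v - κ - 2 = v - (κ + 1) - 1 by ring, show v - κ - 1 = v - (κ + 1) by ring,
    show u - κ - 2 = u - (κ + 1) - 1 by ring]
  rw [show v - κ - 1 = v - (κ + 1) by ring] at h1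
  rw [show u - κ - 1 = u - (κ + 1) by ring] at h1 ⊢
  exact h1

end Pool.Agent.Lib.MP_997b73_pr.Tri
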