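import Mathlib

/-!
Coefficients of power series at integer positions, and the expansion of the identity
`A * F(x^m / (1 + x^M)) = B * F(x^D / (1 + x^M))` at low positions.
-/

set_option autoImplicit false

namespace Pool.Agent.Lib.MP_997b73_pr.Tri

open PowerSeries

variable {W : Type*} [Field W]

/-- the coefficient of `x ^ p`, `p` an integer -/
noncomputable def co (f : W⟦X⟧) (p : ℤ) : W := if 0 ≤ p then coeff p.toNat f else 0

theorem co_neg (f : W⟦X⟧) {p : ℤ} (hp : p < 0) : co f p = 0 := by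
  unfold co
  rw [if_neg (by omega)]

theorem co_nat (f : W⟦X⟧) (n : ℕ) : co f n = coeff n f := by
  unfold co
  rw [if_pos (Int.natCast_nonneg n), Int.toNat_natCast]

theorem co_add (f g : W⟦X⟧) (p : ℤ) : co (f + g) p = co f p + co g p := by
  unfold co
  split_ifs
  · rw [map_add]
  · rw [add_zero]

theorem co_sub (f g : W⟦X⟧) (p : ℤ) : co (f - g) p = co f p - co g p := by
  unfold co
  split_ifs
  · rw [map_sub]
  · rw [sub_zero]

theorem co_smul (c : W) (f : W⟦X⟧) (p : ℤ) : co (c • f) p = c * co f p := by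
  unfold co
  split_ifs
  · rw [coeff_smul, smul_eq_mul]
  · rw [mul_zero]

theorem co_sum {ι : Type*} (s : Finset ι) (f : ι → W⟦X⟧) (p : ℤ) :
    co (∑ i ∈ s, f i) p = ∑ i ∈ s, co (f i) p := by
  unfold co
  split_ifs
  · rw [map_sum]
  · rw [Finset.sum_const_zero]

theorem co_X_pow_mul (s : ℕ) (f : W⟦X⟧) (p : ℤ) : co (X ^ s * f) p = co f (p - s) := by
  by_cases h : (s : ℤ) ≤ p
  · obtain ⟨n, hn⟩ := Int.eq_ofNat_of_zero_le (sub_nonneg.2 h)
    have hp : p = ((n + s : ℕ) : ℤ) := by push_cast; omega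
    rw [hp, co_nat, coeff_X_pow_mul]
    have e : (((n + s : ℕ) : ℤ) - (s : ℤ)) = (n : ℤ) := by push_cast; omega
    rw [e, co_nat]
  · rw [co_neg f (by omega)]
    by_cases hp : 0 ≤ p
    · obtain ⟨n, rfl⟩ := Int.eq_ofNat_of_zero_le hp
      rw [co_nat, coeff_X_pow_mul', if_neg (by omega)]
    · exact co_neg _ (by omega)

theorem exists_U (M : ℕ) (hM : 0 < M) : ∃ U : W⟦X⟧, (1 + X ^ M) * U = 1 := by
  have h : IsUnit (1 + X ^ M : W⟦X⟧) := by
    rw [isUnit_iff_constantCoeff, map_add, map_one, map_pow, constantCoeff_X, zero_pow hM.ne', add_zero]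
    exact isUnit_one
  obtain ⟨u, hu⟩ := h
  exact ⟨(u⁻¹ : (W⟦X⟧)ˣ), by rw [← hu, Units.mul_inv]⟩

theorem U_pow {M : ℕ} {U : W⟦X⟧} (hU : (1 + X ^ M) * U = 1) (k : ℕ) :
    ∃ V : W⟦X⟧, U ^ k = 1 - (k : W⟦X⟧) * X ^ M + X ^ (2 * M) * V := by
  have h1 : U = 1 - X ^ M + X ^ (2 * M) * U := by
    have e1 : U = 1 - X ^ M * U := by linear_combination hU
    have e2 : X ^ (2 * M) = (X ^ M * X ^ M : W⟦X⟧) := by rw [← pow_add, two_mul]
    rw [e2]
    linear_combination (1 + -X ^ M) * e1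
  induction k with
  | zero => exact ⟨0, by simp⟩
  | succ k ih =>
    obtain ⟨V, hV⟩ := ih
    refine ⟨(k : W⟦X⟧) + V * (1 - X ^ M + X ^ (2 * M) * U) + (1 - (k : W⟦X⟧) * X ^ M) * U, ?_⟩
    have e2 : X ^ (2 * M) = (X ^ M * X ^ M : W⟦X⟧) := by rw [← pow_add, two_mul]
    rw [pow_succ, hV]
    push_cast
    rw [e2] at h1 ⊢
    linear_combination (1 - (k : W⟦X⟧) * X ^ M + X ^ M * X ^ M * V) * h1

theorem co_pow {M : ℕ} {U : W⟦X⟧} (hU : (1 + X ^ M) * U = 1) (f : W⟦X⟧) (m k : ℕ) (p : ℤ)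
    (hp : p < k * m + 2 * M) :
    co (f * (X ^ m * U) ^ k) p = co f (p - k * m) - k * co f (p - k * m - M) := by
  obtain ⟨V, hV⟩ := U_pow hU k
  have e1 : f * (X ^ m * U) ^ k = X ^ (k * m) * f - (k : W) • (X ^ (k * m + M) * f) +
      X ^ (k * m + 2 * M) * (V * f) := by
    have e2 : ((k : W) • (X ^ (k * m + M) * f)) = (k : W⟦X⟧) * (X ^ (k * m + M) * f) := by
      rw [Algebra.smul_def, map_natCast]
    rw [e2, mul_pow, hV, ← pow_mul, mul_comm m k, pow_add, pow_add]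
    ring
  rw [e1, co_add, co_sub, co_smul, co_X_pow_mul, co_X_pow_mul, co_X_pow_mul]
  rw [co_neg (V * f) (by push_cast; omega), add_zero]
  push_cast
  rw [sub_sub p]

/-- the expansion of both sides -/
theorem expand {M : ℕ} {U : W⟦X⟧} (hU : (1 + X ^ M) * U = 1) (f : W⟦X⟧) (m : ℕ) (F : Polynomial W)
    (n : ℕ) (hn : F.natDegree < n) (κ : ℕ) (h0 : F.coeff 0 = 1) (hF : ∀ k, 0 < k → k < κ → F.coeff k = 0)
    (p : ℤ) (hp : p < κ * m + 2 * M) :
    co (f * Polynomial.aeval (X ^ m * U) F) p = co f p +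
      ∑ k ∈ (Finset.range n).filter (fun k => κ ≤ k ∧ 0 < k), F.coeff k * (co f (p - k * m) - k * co f (p - k * m - M)) := by
  have hn0 : 0 < n := by omega
  rw [Polynomial.aeval_eq_sum_range' hn, Finset.mul_sum, co_sum]
  have e : ∀ k ∈ Finset.range n, co (f * F.coeff k • (X ^ m * U) ^ k) p =
      (if k = 0 then co f p else 0) +
        if κ ≤ k ∧ 0 < k then F.coeff k * (co f (p - k * m) - k * co f (p - k * m - M)) else 0 := by
    intro k _
    rw [mul_smul_comm, co_smul]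
    by_cases hk : k = 0
    · rw [if_pos hk, if_neg (by omega), add_zero, hk, h0, one_mul, pow_zero, mul_one]
    · rw [if_neg hk, zero_add]
      by_cases hk2 : κ ≤ k
      · rw [if_pos ⟨hk2, by omega⟩, co_pow hU]
        have : (κ : ℤ) * m ≤ k * m := by
          exact_mod_cast Nat.mul_le_mul_right m hk2
        omega
      · rw [if_neg (by omega), hF k (by omega) (by omega), zero_mul]
  rw [Finset.sum_congr rfl e, Finset.sum_add_distrib, Finset.sum_ite_eq', if_pos (Finset.mem_range.2 hn0),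
    Finset.sum_filter]

end Pool.Agent.Lib.MP_997b73_pr.Tri
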