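import Pool.Agent.Lib.MP_997b73_pr.Tri.Alg

/-!
Trinomials.
-/

set_option autoImplicit false

namespace Pool.Agent.Lib.MP_997b73_pr.Tri

open Polynomial

theorem embed {α : ℝ} {W : Type*} [Field W] [Algebra ℚ W]
    (φ ψ : IntermediateField.adjoin ℚ {α} →ₐ[ℚ] W) (h : φ ≠ ψ) :
    φ ⟨α, IntermediateField.subset_adjoin _ _ rfl⟩ ≠ ψ ⟨α, IntermediateField.subset_adjoin _ _ rfl⟩ := by
  intro e
  apply h
  apply IntermediateField.adjoin_algHom_ext
  intro x hx
  rw [Set.mem_singleton_iff] at hx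
  subst hx
  exact e

theorem switch_exists {a b : ℤ → ℝ} {M N m : ℕ} (h : Norm a b M N) (hm : 0 < m) (hM : m < M)
    (hs : ∀ i : ℤ, a i ≠ 0 → i = 0 ∨ i = m ∨ i = M) (hα : a m ≠ 0) :
    ∃ (W : Type) (_ : Field W) (_ : CharZero W) (R S : ℤ[X]) (E : W[X]),
      R.map (algebraMap ℤ ℝ) = poly a M * poly b N ∧ (∀ k, R.coeff k = 0 ∨ R.coeff k = 1) ∧
      (∀ k, S.coeff k = 0 ∨ S.coeff k = 1) ∧ E.coeff 0 = 1 ∧ (∃ k, 0 < k ∧ E.coeff k ≠ 0) ∧
      ∀ U : PowerSeries W, (1 + PowerSeries.X ^ M) * U = 1 →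
        ((S.map (algebraMap ℤ W) : W[X]) : PowerSeries W) * aeval (PowerSeries.X ^ m * U) E =
        ((R.map (algebraMap ℤ W) : W[X]) : PowerSeries W) * aeval (PowerSeries.X ^ (M - m) * U) E := by
  classical
  obtain ⟨R, hR, hR2⟩ := h.exists_int
  have hRc : ∀ i, ((R.coeff i : ℤ) : ℝ) = (poly a M * poly b N).coeff i := by
    intro i
    rw [← hR2, coeff_map]
    rfl
  have h01 : ∀ i, R.coeff i = 0 ∨ R.coeff i = 1 := by
    intro i
    rcases h.R01 i with h1 | h1
    · left
      have := hRc i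
      rw [h1] at this
      exact_mod_cast this
    · right
      have := hRc i
      rw [h1] at this
      exact_mod_cast this
  set α : ℝ := a m with hαdef
  let K := IntermediateField.adjoin ℚ ({α} : Set ℝ)
  have hfd : FiniteDimensional ℚ K := by
    apply IntermediateField.finiteDimensional_adjoin
    intro x hx
    rw [Set.mem_singleton_iff] at hx
    subst hx
    have := h.intA m
    rw [poly_coeff h.a_big] at this
    exact this.tower_top
  let αK : K := ⟨α, IntermediateField.subset_adjoin _ _ rfl⟩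
  have hinj : Function.Injective (algebraMap K ℝ) := (algebraMap K ℝ).injective
  have hA : (P3 m M αK).map (algebraMap K ℝ) = poly a M := by
    ext k
    rw [coeff_map, P3_coeff, poly_coeff h.a_big]
    have hα' : algebraMap K ℝ αK = α := rfl
    rw [map_add, map_add, apply_ite (algebraMap K ℝ), apply_ite (algebraMap K ℝ), apply_ite (algebraMap K ℝ),
      map_one, map_zero, hα']
    by_cases h0 : k = 0
    · subst h0
      rw [if_pos rfl, if_neg (by omega), if_neg (by omega), Nat.cast_zero, h.a0]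
      norm_num
    · by_cases h1 : k = m
      · subst h1
        rw [if_neg h0, if_pos rfl, if_neg (by omega)]
        rw [zero_add, add_zero]
      · by_cases h2 : k = M
        · subst h2
          rw [if_neg h0, if_neg h1, if_pos rfl, h.am_eq]
          norm_num
        · rw [if_neg h0, if_neg h1, if_neg h2]
          have : a k = 0 := by
            by_contra hc
            rcases hs k hc with h3 | h3 | h3 <;> omega
          rw [this]
          norm_num
  have hAd : P3 m M αK ∣ R.map (algebraMap ℤ K) := by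
    rw [← map_dvd_map' (algebraMap K ℝ), hA, Polynomial.map_map]
    have e : (algebraMap K ℝ).comp (algebraMap ℤ K) = algebraMap ℤ ℝ := RingHom.ext_int _ _
    rw [e, hR2]
    exact dvd_mul_right _ _
  obtain ⟨W, _, _, _⟩ : ∃ (W : Type) (_ : Field W) (_ : Algebra ℚ W), IsAlgClosure ℚ W :=
    ⟨AlgebraicClosure ℚ, inferInstance, AlgebraicClosure.instAlgebra ℚ, inferInstance⟩
  have : CharZero W := algebraRat.charZero W
  have : IsAlgClosed W := IsAlgClosure.isAlgClosed ℚ
  have hne : Nonempty (K →ₐ[ℚ] W) := ⟨IsAlgClosed.lift⟩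
  have hPφ : ∀ φ : K →ₐ[ℚ] W, (P3 m M αK).map (φ : K →+* W) = P3 m M (φ αK) := by
    intro φ
    unfold P3
    rw [Polynomial.map_add, Polynomial.map_add, Polynomial.map_mul, Polynomial.map_pow, Polynomial.map_pow,
      Polynomial.map_one, map_X, map_C]
    rfl
  have hn : nrm W (P3 m M αK) = ∏ φ : K →ₐ[ℚ] W, P3 m M (φ αK) := by
    unfold nrm
    exact Finset.prod_congr rfl fun φ _ => hPφ φ
  have hnd : nrm W (P3 m M αK) ∣ R.map (algebraMap ℤ W) := by
    rw [hn]
    apply Fintype.prod_dvd_of_coprime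
    · intro φ ψ hφψ
      exact P3_coprime hM (embed φ ψ hφψ)
    · intro φ
      rw [← hPφ φ]
      have e : R.map (algebraMap ℤ W) = (R.map (algebraMap ℤ K)).map (φ : K →+* W) := by
        rw [Polynomial.map_map]
        congr 1
        exact RingHom.ext_int _ _
      rw [e]
      exact Polynomial.map_dvd _ hAd
  obtain ⟨F, hF⟩ := nrm_rat W (P3 m M αK)
  have hinjQ : Function.Injective (algebraMap ℚ W) := (algebraMap ℚ W).injective
  have hnm : (nrm W (P3 m M αK)).Monic := by
    rw [hn]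
    exact monic_prod_of_monic _ _ fun φ _ => P3_monic hm hM _
  have hn0 : (nrm W (P3 m M αK)).coeff 0 = 1 := by
    rw [hn, coeff_zero_eq_eval_zero, eval_prod]
    refine Finset.prod_eq_one fun φ _ => ?_
    rw [← coeff_zero_eq_eval_zero, P3_zero hm hM]
  have hFm : F.Monic := monic_of_injective hinjQ (by rw [hF]; exact hnm)
  have hFd : F ∣ R.map (algebraMap ℤ ℚ) := by
    rw [← map_dvd_map' (algebraMap ℚ W), hF, Polynomial.map_map]
    have e : (algebraMap ℚ W).comp (algebraMap ℤ ℚ) = algebraMap ℤ W := RingHom.ext_int _ _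
    rw [e]
    exact hnd
  obtain ⟨F₁, hF₁⟩ := IsIntegrallyClosed.eq_map_mul_C_of_dvd ℚ hR hFd
  rw [hFm.leadingCoeff, C_1, mul_one] at hF₁
  have hinjZ : Function.Injective (algebraMap ℤ ℚ) := (algebraMap ℤ ℚ).injective_int
  have hF₁m : F₁.Monic := monic_of_injective hinjZ (by rw [hF₁]; exact hFm)
  have hdvd : F₁ ∣ R := by
    rw [← hF₁] at hFd
    exact (Polynomial.map_dvd_map _ hinjZ hF₁m).mp hFd
  obtain ⟨C₁, hC₁⟩ := hdvd
  have hmap : F₁.map (algebraMap ℤ W) = nrm W (P3 m M αK) := by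
    rw [← hF, ← hF₁, Polynomial.map_map]
    congr 1
    exact RingHom.ext_int _ _
  have hF₁0 : F₁.coeff 0 = 1 := by
    have h1 : algebraMap ℤ W (F₁.coeff 0) = algebraMap ℤ _ 1 := by
      rw [← coeff_map, hmap, hn0, map_one]
    exact (algebraMap ℤ W).injective_int h1
  have hC0 : C₁ ≠ 0 := by
    rintro rfl
    rw [mul_zero] at hC₁
    exact hR.ne_zero hC₁
  have hmir : F₁.mirror.map (algebraMap ℤ W) = ∏ φ : K →ₐ[ℚ] W, P3 (M - m) M (φ αK) := by
    have e1 : F₁.mirror.map (algebraMap ℤ W) = (F₁.map (algebraMap ℤ W)).mirror := by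
      ext i
      rw [mirror_map_coeff _ hF₁m hF₁0, coeff_map]
    rw [e1, hmap, hn, mirror_prod']
    exact Finset.prod_congr rfl fun φ _ => P3_mirror hm hM _
  refine ⟨W, inferInstance, inferInstance, R, F₁.mirror * C₁, ∏ φ : K →ₐ[ℚ] W, (1 + C (φ αK) * X),
    hR2, h01, switch hF₁m.ne_zero hC0 (by rw [← hC₁]; exact h01), E_zero _, E_exists _ ?_, ?_⟩
  · intro φ h0
    have h1 := (map_eq_zero φ).mp h0
    exact hα (congrArg Subtype.val h1)
  · intro U hU
    have e1 := coe_prod_P3 (m := m) hU (fun φ : K →ₐ[ℚ] W => φ αK)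
    have e2 := coe_prod_P3 (m := M - m) hU (fun φ : K →ₐ[ℚ] W => φ αK)
    have hne0 : (1 + PowerSeries.X ^ M : PowerSeries W) ^ Fintype.card (K →ₐ[ℚ] W) ≠ 0 := by
      apply pow_ne_zero
      intro h0
      rw [h0, zero_mul] at hU
      exact zero_ne_one hU
    apply mul_left_cancel₀ hne0
    rw [hC₁, Polynomial.map_mul, Polynomial.map_mul, coe_mul, coe_mul, hmir, hmap, hn]
    rw [mul_left_comm, ← e1, mul_left_comm, ← e2]
    ring

theorem sum_tri {a b : ℤ → ℝ} {M N m : ℕ} (h : Norm a b M N) (hm : 0 < m) (hM : m < M)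
    (hs : ∀ i : ℤ, a i ≠ 0 → i = 0 ∨ i = m ∨ i = M) (k : ℕ) :
    (poly a M * poly b N).coeff k = b k + a m * b (k - m) + b (k - M) := by
  classical
  rw [h.sum_eq]
  have e : ∑ i ∈ Finset.Icc (0 : ℤ) M, a i * b (k - i) = ∑ i ∈ ({0, (m : ℤ), (M : ℤ)} : Finset ℤ), a i * b (k - i) := by
    symm
    apply Finset.sum_subset
    · intro i hi
      rw [Finset.mem_insert, Finset.mem_insert, Finset.mem_singleton] at hi
      rw [Finset.mem_Icc]
      omega
    · intro i _ hi
      rw [Finset.mem_insert, Finset.mem_insert, Finset.mem_singleton] at hi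
      have : a i = 0 := by
        by_contra hc
        exact hi (hs i hc)
      rw [this, zero_mul]
  rw [e, Finset.sum_insert (by
      rw [Finset.mem_insert, Finset.mem_singleton]
      omega), Finset.sum_pair (by omega), h.a0, h.am_eq, sub_zero, one_mul, one_mul, add_assoc]

/-- the short case -/
theorem tri_lt {a b : ℤ → ℝ} {M N m : ℕ} (h : Norm a b M N) (hm : 0 < m) (hM : 2 * m < M)
    (hs : ∀ i : ℤ, a i ≠ 0 → i = 0 ∨ i = m ∨ i = M) (hα0 : 0 < a m) (hα1 : a m < 1) : False := by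
  obtain ⟨W, _, _, R, S, E, hR, hR01, hS01, hE0, hE, hid⟩ :=
    switch_exists h hm (by omega) hs hα0.ne'
  obtain ⟨U, hU⟩ := exists_U (W := W) M (by omega)
  have hRc : ∀ k : ℕ, ((R.coeff k : ℤ) : ℝ) = b k + a m * b (k - m) + b (k - M) := by
    intro k
    rw [← sum_tri h hm (by omega) hs, ← hR, coeff_map]
    rfl
  have hco : ∀ (Q : ℤ[X]) (p : ℤ), co ((Q.map (algebraMap ℤ W) : W[X]) : PowerSeries W) p =
      ((if 0 ≤ p then Q.coeff p.toNat else 0 : ℤ) : W) := by
    intro Q p
    unfold co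
    split_ifs
    · rw [coeff_coe, coeff_map]
      rfl
    · rw [Int.cast_zero]
  refine core (W := W) (m := m) (D := M - m) (M := M) hm (by omega) (by omega) hU hα0 hα1 (b := b)
    (r := fun p => if 0 ≤ p then R.coeff p.toNat else 0) (s := fun p => if 0 ≤ p then S.coeff p.toNat else 0)
    (hco R) (hco S) h.b_nonneg h.b_neg h.b0 ?_ ?_ ?_ E hE0 hE (hid U hU)
  · intro p
    show (if 0 ≤ p then R.coeff p.toNat else 0) = 0 ∨ (if 0 ≤ p then R.coeff p.toNat else 0) = 1
    split_ifs
    · exact hR01 _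
    · exact Or.inl rfl
  · intro p
    show (if 0 ≤ p then S.coeff p.toNat else 0) = 0 ∨ (if 0 ≤ p then S.coeff p.toNat else 0) = 1
    split_ifs
    · exact hS01 _
    · exact Or.inl rfl
  · intro p
    show (((if 0 ≤ p then R.coeff p.toNat else 0) : ℤ) : ℝ) = b p + a m * b (p - m) + b (p - M)
    split_ifs with hp
    · obtain ⟨k, rfl⟩ := Int.eq_ofNat_of_zero_le hp
      rw [Int.toNat_natCast]
      exact hRc k
    · rw [h.b_neg p (by omega), h.b_neg (p - m) (by omega), h.b_neg (p - M) (by omega)]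
      norm_num

/-- the middle case -/
theorem tri_eq {a b : ℤ → ℝ} {M N m : ℕ} (h : Norm a b M N) (hm : 0 < m) (hM : 2 * m = M)
    (hs : ∀ i : ℤ, a i ≠ 0 → i = 0 ∨ i = m ∨ i = M) (hα0 : 0 < a m) (hα1 : a m < 1) : False := by
  have e1 := sum_tri h hm (by omega) hs M
  have e2 := sum_tri h hm (by omega) hs m
  have r1 := h.R01 M
  have r2 := h.R01 m
  rw [e1, sub_self, h.b0, show (M : ℤ) - m = m by omega] at r1
  rw [e2, sub_self, h.b0, mul_one, h.b_neg ((m : ℤ) - M) (by omega), add_zero] at r2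
  have b1 := h.b_nonneg M
  have b2 := h.b_nonneg m
  have b3 : a m * b m ≤ 0 := by
    rcases r1 with r1 | r1 <;> linarith
  have b4 : b m = 0 := by
    by_contra hc
    have := mul_pos hα0 (lt_of_le_of_ne b2 (Ne.symm hc))
    linarith
  rw [b4] at r2
  rcases r2 with r2 | r2 <;> linarith

/-- trinomials -/
theorem norm_tri {a b : ℤ → ℝ} {M N : ℕ} (h : Norm a b M N) (c : ℤ)
    (hs : ∀ i : ℤ, a i ≠ 0 → i = 0 ∨ i = c ∨ i = M) :
    (∀ i, a i = 0 ∨ a i = 1) ∧ ∀ i, b i = 0 ∨ b i = 1 := by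
  by_contra hne
  obtain ⟨t, ht0, hat, hbt, hab, -⟩ := h.first_fractional hne
  have ht1 : a t < 1 := by linarith
  have htM : t < M := by
    rcases lt_trichotomy t M with h1 | h1 | h1
    · exact h1
    · rw [h1, h.am_eq] at ht1
      exact absurd ht1 (lt_irrefl _)
    · rw [h.a_big t h1] at hat
      exact absurd hat (lt_irrefl _)
  have htc : t = c := by
    rcases hs t hat.ne' with h1 | h1 | h1
    · omega
    · exact h1
    · omega
  subst htc
  obtain ⟨m, rfl⟩ := Int.eq_ofNat_of_zero_le ht0.le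
  have hm : 0 < m := by exact_mod_cast ht0
  have hmM : m < M := by exact_mod_cast htM
  rcases lt_trichotomy (2 * m) M with h1 | h1 | h1
  · exact tri_lt h hm h1 hs hat ht1
  · exact tri_eq h hm h1 hs hat ht1
  · have e : ((M - m : ℕ) : ℤ) = M - m := by push_cast [hmM.le]; ring
    refine tri_lt h.rev (m := M - m) (by omega) (by omega) ?_ ?_ ?_
    · intro i hi
      have h2 := hs _ hi
      rw [e]
      omega
    · show 0 < a (M - ((M - m : ℕ) : ℤ))
      rw [e, show (M : ℤ) - (M - m) = m by ring]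
      exact hat
    · show a (M - ((M - m : ℕ) : ℤ)) < 1
      rw [e, show (M : ℤ) - (M - m) = m by ring]
      exact ht1

end Pool.Agent.Lib.MP_997b73_pr.Tri
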